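import Pool.Agent.Helper61.QG.GoalsV

/-!
# Project QS/QT (MP_0ebdb3_gt), packet V-CVT: the curvature condition, matrices and operators
-/

set_option autoImplicit false

open Set Filter Topology
open scoped Matrix

namespace Pool.Agent.Helper23.QG

open Pool.Agent.Helper61
open Pool.Agent.Helper61.QG
open Pool.Agent.Helper61.QS (V En rk R4 SecNN)

/-! ### Naturality of the curvature number, local version -/

section curv

variable {F F' : Type} [NormedAddCommGroup F] [NormedSpace ℝ F]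
  [NormedAddCommGroup F'] [NormedSpace ℝ F']

/-- the derivatives agree near the point -/
theorem fderiv_nat (L : F ≃L[ℝ] F') (f : F → ℝ) (f' : F' → ℝ) (z : F)
    (h : ∀ᶠ y in 𝓝 z, f y = f' (L y)) (a : F) :
    fderiv ℝ f z a = fderiv ℝ f' (L z) (L a) := by
  have h1 : f =ᶠ[𝓝 z] f' ∘ L := h
  rw [h1.fderiv_eq, ContinuousLinearEquiv.comp_right_fderiv]
  rfl

theorem fderiv_nat_ev (L : F ≃L[ℝ] F') (f : F → ℝ) (f' : F' → ℝ) (z : F)
    (h : ∀ᶠ y in 𝓝 z, f y = f' (L y)) (a : F) :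
    ∀ᶠ y in 𝓝 z, fderiv ℝ f y a = fderiv ℝ f' (L y) (L a) :=
  h.eventually_nhds.mono fun y hy => fderiv_nat L f f' y hy a

theorem dd_nat (L : F ≃L[ℝ] F') (f : F → ℝ) (f' : F' → ℝ) (z : F)
    (h : ∀ᶠ y in 𝓝 z, f y = f' (L y)) (a b : F) :
    QM.dd f z a b = QS.dd f' (L z) (L a) (L b) :=
  fderiv_nat L (fun y => fderiv ℝ f y b) (fun y => fderiv ℝ f' y (L b)) z
    (fderiv_nat_ev L f f' z h b) a

theorem curv_nat (L : F ≃L[ℝ] F') (g : F → F → F → ℝ) (g' : F' → F' →L[ℝ] F' →L[ℝ] ℝ) (z : F)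
    (h : ∀ᶠ y in 𝓝 z, ∀ a b, g y a b = g' (L y) (L a) (L b)) (a b : F) (K : ℝ)
    (hK : QS.IsCurv g' (L z) (L a) (L b) K) : QM.IsCurv g z a b K := by
  obtain ⟨cab, caa, cbb, h1, h2, h3, h4⟩ := hK
  have hz : ∀ a b, g z a b = g' (L z) (L a) (L b) := h.self_of_nhds
  have hev : ∀ a b, ∀ᶠ y in 𝓝 z, (fun y => g y a b) y = (fun y' => g' y' (L a) (L b)) (L y) :=
    fun a b => h.mono fun y hy => hy a b
  have hG : ∀ a b c, QM.Gam g z a b c = QS.Gam g' (L z) (L a) (L b) (L c) := by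
    intro a b c
    unfold QM.Gam QS.Gam
    rw [fderiv_nat L (fun y => g y b c) (fun y' => g' y' (L b) (L c)) z (hev b c) a,
      fderiv_nat L (fun y => g y a c) (fun y' => g' y' (L a) (L c)) z (hev a c) b,
      fderiv_nat L (fun y => g y a b) (fun y' => g' y' (L a) (L b)) z (hev a b) c]
  refine ⟨L.symm cab, L.symm caa, L.symm cbb, ?_, ?_, ?_, ?_⟩
  · intro x
    rw [hz, L.apply_symm_apply, h1, hG]
  · intro x
    rw [hz, L.apply_symm_apply, h2, hG]
  · intro x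
    rw [hz, L.apply_symm_apply, h3, hG]
  · rw [dd_nat L (fun y => g y b b) (fun y' => g' y' (L b) (L b)) z (hev b b) a a,
      dd_nat L (fun y => g y a a) (fun y' => g' y' (L a) (L a)) z (hev a a) b b,
      dd_nat L (fun y => g y a b) (fun y' => g' y' (L a) (L b)) z (hev a b) a b,
      hz, hz, L.apply_symm_apply, L.apply_symm_apply, L.apply_symm_apply]
    exact h4

end curv

/-! ### Matrices of operators -/

/-- the matrix of an operator -/
noncomputable def mt {n k : ℕ} (A : V k →L[ℝ] V n) : Matrix (Fin n) (Fin k) ℝ :=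
  Matrix.of fun i j => ((vE n).symm (A (vE k (Pi.single j 1)))) i

theorem mt_mulVec {n k : ℕ} (A : V k →L[ℝ] V n) (w : Fin k → ℝ) :
    A (vE k w) = vE n (mt A *ᵥ w) := by
  have h : mt A = LinearMap.toMatrix'
      (((vE n).symm : V n →L[ℝ] (Fin n → ℝ)) ∘L A ∘L ((vE k) : (Fin k → ℝ) →L[ℝ] V k)
        : (Fin k → ℝ) →ₗ[ℝ] (Fin n → ℝ)) := by
    ext i j
    rw [LinearMap.toMatrix'_apply]
    rfl
  rw [h, LinearMap.toMatrix'_mulVec]
  simp

/-- an entry as a continuous linear map -/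
noncomputable def ent (n k : ℕ) (i : Fin n) (j : Fin k) : (V k →L[ℝ] V n) →L[ℝ] ℝ :=
  (ContinuousLinearMap.proj i : (Fin n → ℝ) →L[ℝ] ℝ) ∘L
    ((vE n).symm : V n →L[ℝ] (Fin n → ℝ)) ∘L
      (ContinuousLinearMap.apply ℝ (V n) (vE k (Pi.single j 1)))

theorem ent_apply (n k : ℕ) (i : Fin n) (j : Fin k) (A : V k →L[ℝ] V n) :
    ent n k i j A = mt A i j := rfl

theorem norm_vE (n : ℕ) (v : Fin n → ℝ) : ‖vE n v‖ ^ 2 = v ⬝ᵥ v := by
  have h := EuclideanSpace.norm_sq_eq (𝕜 := ℝ) ((EuclideanSpace.equiv (Fin n) ℝ).symm v)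
  have h1 : ‖vE n v‖ = ‖(EuclideanSpace.equiv (Fin n) ℝ).symm v‖ := rfl
  rw [h1, h]
  unfold dotProduct
  refine Finset.sum_congr rfl fun i _ => ?_
  rw [Real.norm_eq_abs, sq_abs, sq]
  rfl

/-- PACKET V-CVT -/
theorem goalCVT : G_CVT := by
  intro WW _ _ _ M n k ρ e B gM γ e' B' g' γ' hR hρ hT U p s' hC x hx w hw a b K hK
  -- the matrix chart
  obtain ⟨s, hs⟩ : ∃ s : R4 → Matrix (Fin n) (Fin k) ℝ, s = fun y => mt (s' y) := ⟨_, rfl⟩
  have hs' : ∀ y u, s' y (vE k u) = vE n (s y *ᵥ u) := by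
    intro y u
    rw [hs]; exact mt_mulVec (s' y) u
  have hdiff : ∀ y ∈ U, DifferentiableAt ℝ s' y := fun y hy =>
    ((hC.smooth_s.contDiffAt (hC.isOpen.mem_nhds hy)).differentiableAt (by norm_num))
  have hfd : ∀ y ∈ U, ∀ c : R4, ∀ i j, fderiv ℝ (fun y => s y i j) y c =
      mt (fderiv ℝ s' y c) i j := by
    intro y hy c i j
    have h1 : (fun y => s y i j) = fun y => ent n k i j (s' y) := by
      rw [hs]; rfl
    rw [h1]
    have h2 := ((ent n k i j).hasFDerivAt.comp y (hdiff y hy).hasFDerivAt).fderiv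
    have h3 : fderiv ℝ (fun y => ent n k i j (s' y)) y = (ent n k i j).comp (fderiv ℝ s' y) := h2
    rw [h3]; rfl
  have hchart : QM.IsChart M k e U p s := by
    refine ⟨hC.isOpen, hC.smooth_p, ?_, hC.mem, hC.trans, ?_, ?_⟩
    · intro i j
      have h1 : (fun y => s y i j) = fun y => ent n k i j (s' y) := by
        rw [hs]; rfl
      rw [h1]
      exact (ent n k i j).contDiff.comp_contDiffOn hC.smooth_s
    · intro y hy u hu
      have h1 : s' y (vE k u) = s' y 0 := by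
        rw [hs', hu, map_zero, map_zero]
      have h2 := hC.inj y hy h1
      exact (vE k).map_eq_zero_iff.1 h2
    · intro y hy v
      have h1 := hC.range y hy (vE n v)
      rw [hR.he] at h1
      constructor
      · intro h
        obtain ⟨u, hu⟩ := h1.1 (by rw [h])
        refine ⟨(vE k).symm u, (vE n).injective ?_⟩
        rw [← hs', (vE k).apply_symm_apply, hu]
      · rintro ⟨u, hu⟩
        apply (vE n).injective
        exact h1.2 ⟨vE k u, by rw [hs', hu]⟩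
  -- the isomorphism
  obtain ⟨L, hL⟩ : ∃ L : (R4 × (Fin k → ℝ)) ≃L[ℝ] (R4 × V k),
      ∀ z, L z = (z.1, vE k z.2) :=
    ⟨(ContinuousLinearEquiv.refl ℝ R4).prodCongr (vE k), fun z => rfl⟩
  have hNf : ∀ y ∈ U, ∀ (u : Fin k → ℝ) (h : R4 × (Fin k → ℝ)),
      Nf B' p s' (y, vE k u) (h.1, vE k h.2) = vE n (QM.Nf B p s y u h.1 h.2) := by
    intro y hy u h
    have e1 : Nf B' p s' (y, vE k u) (h.1, vE k h.2) =
      (fderiv ℝ s' y h.1) (vE k u) + s' y (vE k h.2) -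
        (B' (p y) (fderiv ℝ p y h.1)) (s' y (vE k u)) := rfl
    have e2 : (Matrix.of fun i j => fderiv ℝ (fun y => s y i j) y h.1) = mt (fderiv ℝ s' y h.1) := by
      ext i j
      exact hfd y hy h.1 i j
    rw [e1, QM.Nf, e2, map_sub, map_add, ← mt_mulVec, ← hs', ← hR.hB, ← hs']
  have hgT : ∀ z : R4 × (Fin k → ℝ), z.1 ∈ U → ∀ h h' : R4 × (Fin k → ℝ),
      QM.gT gM γ B p s z h h' = gT g' γ' B' p s' (L z) (L h) (L h') := by
    intro z hz h h'
    have e1 : gT g' γ' B' p s' (z.1, vE k z.2) (h.1, vE k h.2) (h'.1, vE k h'.2) =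
      g' (p z.1) (fderiv ℝ p z.1 h.1) (fderiv ℝ p z.1 h'.1) +
      γ' (p z.1, s' z.1 (vE k z.2)) (Nf B' p s' (z.1, vE k z.2) (h.1, vE k h.2))
        (Nf B' p s' (z.1, vE k z.2) (h'.1, vE k h'.2)) := rfl
    rw [hL, hL, hL, e1, hNf z.1 hz, hNf z.1 hz, hs', hR.hγ, hR.hg]
    rfl
  have hLx : L (x, (vE k).symm w) = (x, w) := by
    rw [hL]; simp
  refine hT U p s hchart x hx ((vE k).symm w) ?_ (L.symm a) (L.symm b) K ?_
  · have h1 : ‖vE n (s x *ᵥ (vE k).symm w)‖ < ρ := by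
      rw [← hs', (vE k).apply_symm_apply]; exact hw
    rw [← norm_vE]
    exact pow_lt_pow_left₀ h1 (norm_nonneg _) two_ne_zero
  · refine curv_nat L (QM.gT gM γ B p s) (gT g' γ' B' p s') (x, (vE k).symm w) ?_ _ _ K ?_
    · have h1 : ∀ᶠ z : R4 × (Fin k → ℝ) in 𝓝 (x, (vE k).symm w), z.1 ∈ U :=
        continuous_fst.continuousAt.eventually_mem (hC.isOpen.mem_nhds hx)
      exact h1.mono fun z hz a b => hgT z hz a b
    · rw [hLx, L.apply_symm_apply, L.apply_symm_apply]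
      exact hK

end Pool.Agent.Helper23.QG
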